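import Pool.Agent.helper15.P2.SpecN

set_option autoImplicit false

open scoped ContDiff Topology ComplexConjugate
open MeasureTheory Filter Set Metric

namespace Pool.Agent.P2N

open Pool.Agent.P2 Pool.Agent.P2I

/-- the bump function -/
noncomputable def IX1_bump : ContDiffBump (0 : ℂ) :=
  ⟨791 / 1000, 795 / 1000, by norm_num, by norm_num⟩

theorem IX1_tsup : tsupport (IX1_bump : ℂ → ℝ) ⊆ ball 0 (4 / 5) := by
  rw [ContDiffBump.tsupport_eq]
  exact closedBall_subset_ball (by norm_num [IX1_bump])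

theorem IX1_lap_cont (χ : ℂ → ℝ) (hχ : ContDiff ℝ ∞ χ) : Continuous (lap χ) := by
  unfold lap
  have h : Continuous (iteratedFDeriv ℝ 2 χ) :=
    hχ.continuous_iteratedFDeriv (m := 2) (WithTop.coe_le_coe.2 (le_top (a := ((2 : ℕ) : ℕ∞))))
  have h1 : ∀ v : Fin 2 → ℂ, Continuous fun z => iteratedFDeriv ℝ 2 χ z v := by
    intro v
    exact (ContinuousMultilinearMap.apply ℝ (fun _ : Fin 2 => ℂ) ℝ v).continuous.comp h
  exact continuous_const.mul ((h1 _).add (h1 _))

theorem IX1_lap_zero (χ : ℂ → ℝ) (z : ℂ) (hz : z ∉ tsupport χ) : lap χ z = 0 := by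
  have h : iteratedFDeriv ℝ 2 χ z = 0 := by
    by_contra hne
    exact hz (support_iteratedFDeriv_subset 2 (Function.mem_support.2 hne))
  unfold lap
  rw [h]
  simp

theorem IX1_lap_bdd (χ : ℂ → ℝ) (hχ : ContDiff ℝ ∞ χ) (hc : HasCompactSupport χ) :
    ∃ M : ℝ, 0 < M ∧ ∀ z, |lap χ z| ≤ M := by
  have hcs : HasCompactSupport (lap χ) := by
    apply HasCompactSupport.intro hc
    intro z hz
    exact IX1_lap_zero χ z hz
  obtain ⟨M, hM⟩ := (IX1_lap_cont χ hχ).bounded_above_of_compact_support hcs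
  refine ⟨|M| + 1, by positivity, fun z => ?_⟩
  have := hM z
  rw [Real.norm_eq_abs] at this
  calc |lap χ z| ≤ M := this
    _ ≤ |M| := le_abs_self M
    _ ≤ |M| + 1 := by linarith

theorem IX1_W_an (P Q : ℂ → ℂ) (h : P2I.Adm P Q) : AnalyticOnNhd ℂ (Wr P Q) (ball 0 1) := by
  obtain ⟨hP, hQ, _⟩ := h
  have hP' := hP.analyticOnNhd isOpen_ball
  have hQ' := hQ.analyticOnNhd isOpen_ball
  exact (hQ'.mul hP'.deriv).sub (hP'.mul hQ'.deriv)

theorem IX1_sph_cont (P Q : ℂ → ℂ) (h : P2I.Adm P Q) (z : ℂ) (hz : z ∈ ball (0 : ℂ) 1) :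
    ContinuousAt (sph P Q) z := by
  have hW : ContinuousAt (Wr P Q) z := (IX1_W_an P Q h z hz).continuousAt
  obtain ⟨hP, hQ, h0⟩ := h
  have hPc : ContinuousAt P z := (hP.differentiableAt (isOpen_ball.mem_nhds hz)).continuousAt
  have hQc : ContinuousAt Q z := (hQ.differentiableAt (isOpen_ball.mem_nhds hz)).continuousAt
  unfold sph
  refine ContinuousAt.div ?_ ?_ ?_
  · exact Complex.continuous_normSq.continuousAt.comp hW
  · exact ((Complex.continuous_normSq.continuousAt.comp hPc).add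
      (Complex.continuous_normSq.continuousAt.comp hQc)).pow 2
  · apply pow_ne_zero
    rcases h0 z hz with h1 | h1
    · have := Complex.normSq_pos.2 h1
      have := Complex.normSq_nonneg (Q z)
      linarith
    · have := Complex.normSq_pos.2 h1
      have := Complex.normSq_nonneg (P z)
      linarith

theorem IX1_sph_nonneg (P Q : ℂ → ℂ) (z : ℂ) : 0 ≤ sph P Q z := by
  unfold sph
  exact div_nonneg (Complex.normSq_nonneg _) (sq_nonneg _)

theorem IX1_int (P Q : ℂ → ℂ) (h : P2I.Adm P Q) (χ : ℂ → ℝ) (hχ : Continuous χ) (hc : HasCompactSupport χ)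
    (hs : tsupport χ ⊆ ball 0 1) : Integrable (fun z => χ z * sph P Q z) := by
  apply Continuous.integrable_of_hasCompactSupport
  · rw [continuous_iff_continuousAt]
    intro z
    by_cases hz : z ∈ ball (0 : ℂ) 1
    · exact hχ.continuousAt.mul (IX1_sph_cont P Q h z hz)
    · have hz' : z ∉ tsupport χ := fun h' => hz (hs h')
      have hev : (fun z => χ z * sph P Q z) =ᶠ[𝓝 z] fun _ => 0 := by
        have hn : (tsupport χ)ᶜ ∈ 𝓝 z := (isClosed_tsupport χ).isOpen_compl.mem_nhds hz'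
        filter_upwards [hn] with x hx
        rw [image_eq_zero_of_notMem_tsupport hx, zero_mul]
      exact continuousAt_const.congr hev.symm
  · exact hc.mul_right

theorem IX1 (hLGX : LGX_stmt) (hGB : GB_stmt) (hIG : IG_stmt) : IX1_stmt := by
  obtain ⟨C, hC, hL⟩ := hLGX
  obtain ⟨M, hM, hMb⟩ := IX1_lap_bdd IX1_bump IX1_bump.contDiff IX1_bump.hasCompactSupport
  -- the constant of the integral of `|Gr|`
  obtain ⟨A, hA⟩ : ∃ A : ℝ, A = (volume (ball (0 : ℂ) (4 / 5))).toReal := ⟨_, rfl⟩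
  have hA0 : 0 ≤ A := by rw [hA]; exact ENNReal.toReal_nonneg
  have hlog5 : 0 < Real.log 5 := Real.log_pos (by norm_num)
  obtain ⟨C₁, hC₁⟩ : ∃ C₁ : ℝ, C₁ = (61 + 3 * Real.log 5) * A + 4 * C := ⟨_, rfl⟩
  have hC₁0 : 0 < C₁ := by rw [hC₁]; positivity
  refine ⟨C₁ + 16 * M * C₁, by positivity, fun P Q E r hAdm hE hU h4 hr hr1 => ?_⟩
  obtain ⟨hW1, hWi, hWb⟩ := hL P Q E hAdm hE hU h4
  -- `W` is not identically zero
  have hne : ∃ z ∈ ball (0 : ℂ) 1, Wr P Q z ≠ 0 := by
    by_contra hcon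
    push Not at hcon
    have : ∫ z in ball (0 : ℂ) (4 / 5), sph P Q z = 0 := by
      rw [← integral_zero ℂ ℝ (μ := volume.restrict (ball (0 : ℂ) (4 / 5)))]
      apply setIntegral_congr_fun measurableSet_ball
      intro z hz
      have hz1 : z ∈ ball (0 : ℂ) 1 := ball_subset_ball (by norm_num) hz
      simp only [sph, hcon z hz1, map_zero, zero_div]
    linarith
  obtain ⟨z₀, hz₀, hWz₀⟩ := hne
  obtain ⟨hI1, hI2⟩ := hIG P Q E r hAdm hE hU hr hr1 ⟨z₀, hz₀, hWz₀⟩
  have hGi : IntegrableOn (P2I.Gr P Q r) (ball 0 (4 / 5)) := hI1 (4 / 5) (by norm_num)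
  -- `W ≠ 0` almost everywhere
  have hco : Wr P Q ⁻¹' {0}ᶜ ∈ codiscreteWithin (ball (0 : ℂ) 1) :=
    (IX1_W_an P Q hAdm).preimage_zero_mem_codiscreteWithin hWz₀ hz₀
      ⟨⟨0, mem_ball_self one_pos⟩, (convex_ball (0 : ℂ) 1).isPreconnected⟩
  have hae1 : ∀ᵐ z ∂(volume.restrict (ball (0 : ℂ) 1)), Wr P Q z ≠ 0 := by
    have := ae_restrict_le_codiscreteWithin (μ := volume) (measurableSet_ball (x := (0 : ℂ)) (ε := 1)) hco
    filter_upwards [this] with z hz
    exact hz
  have hsub : ball (0 : ℂ) (4 / 5) ⊆ ball 0 1 := ball_subset_ball (by norm_num)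
  have hae : ∀ᵐ z ∂(volume.restrict (ball (0 : ℂ) (4 / 5))), Wr P Q z ≠ 0 :=
    ae_restrict_of_ae_restrict_of_subset hsub hae1
  have : IsFiniteMeasure (volume.restrict (ball (0 : ℂ) (4 / 5))) :=
    ⟨by rw [Measure.restrict_apply_univ]; exact measure_ball_lt_top⟩
  have hGb : ∫ z in ball (0 : ℂ) (4 / 5), |P2I.Gr P Q r z| ≤ C₁ * E := by
    have hmono : ∫ z in ball (0 : ℂ) (4 / 5), |P2I.Gr P Q r z| ≤
        ∫ z in ball (0 : ℂ) (4 / 5), ((61 + 3 * Real.log 5) * E + 4 * |Real.log ‖Wr P Q z‖|) := by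
      apply integral_mono_ae hGi.abs
      · apply Integrable.add
        · exact integrable_const _
        · exact (hWi.abs).const_mul 4
      · have hmem : ∀ᵐ z ∂(volume.restrict (ball (0 : ℂ) (4 / 5))), z ∈ ball (0 : ℂ) (4 / 5) :=
          ae_restrict_mem measurableSet_ball
        filter_upwards [hae, hmem] with z hz hzb
        have hz1 := hsub hzb
        obtain ⟨_, g1, g2⟩ := hGB P Q E r hAdm hE hU hr hr1.le z hz1 hz
        rw [mem_ball, dist_zero_right] at hzb
        have hlog : -Real.log (1 - ‖z‖) ≤ Real.log 5 := by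
          rw [← Real.log_inv]
          apply Real.log_le_log
          · apply inv_pos.2; linarith
          · rw [inv_le_comm₀ (by linarith) (by norm_num)]
            norm_num
            linarith
        have h5 : Real.log ‖Wr P Q z‖ ≤ |Real.log ‖Wr P Q z‖| := le_abs_self _
        have h6 : -|Real.log ‖Wr P Q z‖| ≤ Real.log ‖Wr P Q z‖ := neg_abs_le _
        have h7 : 0 ≤ |Real.log ‖Wr P Q z‖| := abs_nonneg _
        have h8 : 0 ≤ Real.log 5 * E := by positivity
        have h9 : Real.log 5 ≤ Real.log 5 * E := le_mul_of_one_le_right hlog5.le hE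
        rw [abs_le]
        constructor
        · nlinarith
        · nlinarith
    refine hmono.trans ?_
    have hm : volume.real (ball (0 : ℂ) (4 / 5)) = A := by rw [hA]; rfl
    have e3 : ∫ _z in ball (0 : ℂ) (4 / 5), (61 + 3 * Real.log 5) * E = A * ((61 + 3 * Real.log 5) * E) := by
      rw [setIntegral_const, hm, smul_eq_mul]
    have e4 : ∫ z in ball (0 : ℂ) (4 / 5), 4 * |Real.log ‖Wr P Q z‖| =
        4 * ∫ z in ball (0 : ℂ) (4 / 5), |Real.log ‖Wr P Q z‖| := integral_const_mul _ _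
    rw [integral_add (integrable_const _) ((hWi.abs).const_mul 4), e3, e4]
    have h1 : 4 * ∫ z in ball (0 : ℂ) (4 / 5), |Real.log ‖Wr P Q z‖| ≤ 4 * (C * E) :=
      mul_le_mul_of_nonneg_left hWb (by norm_num)
    calc A * ((61 + 3 * Real.log 5) * E) + 4 * ∫ z in ball (0 : ℂ) (4 / 5), |Real.log ‖Wr P Q z‖|
        ≤ A * ((61 + 3 * Real.log 5) * E) + 4 * (C * E) := by linarith
      _ = C₁ * E := by rw [hC₁]; ring
  have hE0 : 0 < E := by linarith
  have hCE : 0 ≤ 16 * M * C₁ * E := by positivity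
  refine ⟨?_, hGi, hGb.trans (by nlinarith)⟩
  -- the main inequality
  have hts1 : tsupport (IX1_bump : ℂ → ℝ) ⊆ ball 0 1 := IX1_tsup.trans hsub
  have key := hI2 IX1_bump IX1_bump.contDiff IX1_bump.hasCompactSupport hts1 (fun z => IX1_bump.nonneg)
  have hint := IX1_int P Q hAdm IX1_bump IX1_bump.continuous IX1_bump.hasCompactSupport hts1
  have hleft : (∫ z in ball (0 : ℂ) (791 / 1000) ∩ {z | rh P Q z ≤ r}, sph P Q z) ≤
      ∫ z in {z : ℂ | z ∈ ball (0 : ℂ) 1 ∧ rh P Q z ≤ r}, IX1_bump z * sph P Q z := by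
    have e1 : (∫ z in ball (0 : ℂ) (791 / 1000) ∩ {z | rh P Q z ≤ r}, sph P Q z) =
        ∫ z in ball (0 : ℂ) (791 / 1000) ∩ {z | rh P Q z ≤ r}, IX1_bump z * sph P Q z := by
      apply integral_congr_ae
      have h1 : ∀ᵐ z ∂(volume.restrict (ball (0 : ℂ) (791 / 1000))), sph P Q z = IX1_bump z * sph P Q z := by
        have hmem : ∀ᵐ z ∂(volume.restrict (ball (0 : ℂ) (791 / 1000))), z ∈ ball (0 : ℂ) (791 / 1000) :=
          ae_restrict_mem measurableSet_ball
        filter_upwards [hmem] with z hz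
        have : IX1_bump z = 1 := by
          apply ContDiffBump.one_of_mem_closedBall
          exact ball_subset_closedBall hz
        rw [this, one_mul]
      exact ae_restrict_of_ae_restrict_of_subset inter_subset_left h1
    rw [e1]
    apply setIntegral_mono_set hint.integrableOn
    · filter_upwards with z
      exact mul_nonneg IX1_bump.nonneg (IX1_sph_nonneg P Q z)
    · apply Filter.Eventually.of_forall
      intro z hz
      exact ⟨ball_subset_ball (by norm_num) hz.1, hz.2⟩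
  have hright : ∫ z, lap IX1_bump z * P2I.Gr P Q r z ≤ M * (C₁ * E) := by
    have e2 : ∫ z, lap IX1_bump z * P2I.Gr P Q r z = ∫ z in ball (0 : ℂ) (4 / 5), lap IX1_bump z * P2I.Gr P Q r z := by
      symm
      apply setIntegral_eq_integral_of_forall_compl_eq_zero
      intro z hz
      rw [IX1_lap_zero IX1_bump z (fun h => hz (IX1_tsup h)), zero_mul]
    rw [e2]
    calc ∫ z in ball (0 : ℂ) (4 / 5), lap IX1_bump z * P2I.Gr P Q r z
        ≤ ‖∫ z in ball (0 : ℂ) (4 / 5), lap IX1_bump z * P2I.Gr P Q r z‖ := Real.le_norm_self _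
      _ ≤ ∫ z in ball (0 : ℂ) (4 / 5), M * |P2I.Gr P Q r z| := by
          apply norm_integral_le_of_norm_le ((hGi.abs).const_mul M)
          filter_upwards with z
          rw [norm_mul, Real.norm_eq_abs, Real.norm_eq_abs]
          exact mul_le_mul_of_nonneg_right (hMb z) (abs_nonneg _)
      _ = M * ∫ z in ball (0 : ℂ) (4 / 5), |P2I.Gr P Q r z| := integral_const_mul _ _
      _ ≤ M * (C₁ * E) := mul_le_mul_of_nonneg_left hGb hM.le
  calc (∫ z in ball (0 : ℂ) (791 / 1000) ∩ {z | rh P Q z ≤ r}, sph P Q z)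
      ≤ 16 * r ^ 2 * ∫ z, lap IX1_bump z * P2I.Gr P Q r z := hleft.trans key
    _ ≤ 16 * r ^ 2 * (M * (C₁ * E)) := mul_le_mul_of_nonneg_left hright (by positivity)
    _ ≤ (C₁ + 16 * M * C₁) * E * r ^ 2 := by
        have : 0 ≤ C₁ * E * r ^ 2 := by positivity
        nlinarith

end Pool.Agent.P2N
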