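import Pool.Agent.helper56.P2.SpecU

set_option autoImplicit false

namespace Pool.Agent.P2U

open MeasureTheory Set Filter Topology Metric Complex
open scoped ENNReal ContDiff

theorem UTZ_mem (x1 : ℂ) (ε : ℝ) (z z1 : ℂ) (hz : z ∈ ball x1 ε) (hz1 : z1 ∈ ball x1 ε) (t : ℝ)
    (ht : t ∈ Icc (0 : ℝ) 1) : z + (t : ℂ) * (z1 - z) ∈ ball x1 ε := by
  have h := (convex_ball x1 ε).add_smul_sub_mem hz hz1 ht
  rwa [Complex.real_smul] at h

theorem UTZ_chain (g : ℂ → ℂ) (z d w g' : ℂ) (h : HasDerivAt g g' (z + w * d)) :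
    HasDerivAt (fun v => g (z + v * d)) (g' * d) w := by
  have h1 : HasDerivAt (fun v : ℂ => z + v * d) d w := by
    have := ((hasDerivAt_id w).mul_const d).const_add z
    simpa using this
  exact HasDerivAt.comp w h h1

theorem UTZ_pos (g : ℂ → ℂ) (x1 c : ℂ) (ε : ℝ) (hc : c ≠ 0)
    (hg : DifferentiableOn ℂ g (ball x1 ε))
    (h2 : ∀ x ∈ ball x1 ε, ‖deriv (deriv g) x - c‖ ≤ ‖c‖ / 2) (z z1 : ℂ) (hz : z ∈ ball x1 ε)
    (hz1 : z1 ∈ ball x1 ε) (hne : z1 - z ≠ 0) (h0 : g z1 = 0) :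
    0 < ((- deriv g z * (z1 - z) - g z) / (c * (z1 - z) ^ 2)).re := by
  obtain ⟨d, hd⟩ : ∃ d : ℂ, d = z1 - z := ⟨_, rfl⟩
  rw [← hd] at hne ⊢
  have hg' : DifferentiableOn ℂ (deriv g) (ball x1 ε) := hg.deriv isOpen_ball
  have hmem : ∀ t : ℝ, t ∈ Icc (0 : ℝ) 1 → z + (t : ℂ) * d ∈ ball x1 ε := by
    intro t ht
    rw [hd]
    exact UTZ_mem x1 ε z z1 hz hz1 t ht
  have hre : ∀ x ∈ ball x1 ε, 0 < (deriv (deriv g) x / c).re := by
    intro x hx
    have h := h2 x hx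
    have hcn : 0 < ‖c‖ := norm_pos_iff.mpr hc
    have h3 : ‖deriv (deriv g) x / c - 1‖ ≤ 1 / 2 := by
      have : deriv (deriv g) x / c - 1 = (deriv (deriv g) x - c) / c := by
        field_simp
      rw [this, norm_div, div_le_iff₀ hcn]
      linarith
    have h4 := (abs_le.mp (Complex.abs_re_le_norm (deriv (deriv g) x / c - 1))).1
    rw [Complex.sub_re, Complex.one_re] at h4
    linarith
  have D1 : ∀ t : ℝ, t ∈ Icc (0 : ℝ) 1 → HasDerivAt (fun s : ℝ => (g (z + (s : ℂ) * d) / (c * d ^ 2)).re)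
      (deriv g (z + (t : ℂ) * d) / (c * d)).re t := by
    intro t ht
    have hx := hmem t ht
    have h := UTZ_chain g z d t _ ((hg.differentiableAt (isOpen_ball.mem_nhds hx)).hasDerivAt)
    have h' := (h.div_const (c * d ^ 2)).real_of_complex
    have e : deriv g (z + (t : ℂ) * d) * d / (c * d ^ 2) = deriv g (z + (t : ℂ) * d) / (c * d) := by
      field_simp
    rw [e] at h'
    exact h'
  have D2 : ∀ t : ℝ, t ∈ Icc (0 : ℝ) 1 → HasDerivAt (fun s : ℝ => (deriv g (z + (s : ℂ) * d) / (c * d)).re)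
      (deriv (deriv g) (z + (t : ℂ) * d) / c).re t := by
    intro t ht
    have hx := hmem t ht
    have h := UTZ_chain (deriv g) z d t _
      ((hg'.differentiableAt (isOpen_ball.mem_nhds hx)).hasDerivAt)
    have h' := (h.div_const (c * d)).real_of_complex
    have e : deriv (deriv g) (z + (t : ℂ) * d) * d / (c * d) =
        deriv (deriv g) (z + (t : ℂ) * d) / c := by
      field_simp
    rw [e] at h'
    exact h'
  obtain ⟨ξ, hξ, eξ⟩ := exists_hasDerivAt_eq_slope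
    (fun s : ℝ => (g (z + (s : ℂ) * d) / (c * d ^ 2)).re)
    (fun s : ℝ => (deriv g (z + (s : ℂ) * d) / (c * d)).re) (zero_lt_one)
    (fun t ht => (D1 t ht).continuousAt.continuousWithinAt)
    (fun t ht => D1 t ⟨ht.1.le, ht.2.le⟩)
  obtain ⟨η, hη, eη⟩ := exists_hasDerivAt_eq_slope
    (fun s : ℝ => (deriv g (z + (s : ℂ) * d) / (c * d)).re)
    (fun s : ℝ => (deriv (deriv g) (z + (s : ℂ) * d) / c).re) hξ.1
    (fun t ht => (D2 t ⟨ht.1, ht.2.trans hξ.2.le⟩).continuousAt.continuousWithinAt)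
    (fun t ht => D2 t ⟨ht.1.le, (ht.2.trans hξ.2).le⟩)
  have hpos := hre _ (hmem η ⟨hη.1.le, (hη.2.trans hξ.2).le⟩)
  have e1 : z + ((1 : ℝ) : ℂ) * d = z1 := by
    rw [hd]
    push_cast
    ring
  have e0 : z + ((0 : ℝ) : ℂ) * d = z := by
    push_cast
    ring
  rw [e1, e0, h0, zero_div, Complex.zero_re, sub_zero, div_one] at eξ
  rw [eη, e0, sub_zero] at hpos
  have hpos2 : 0 < (deriv g (z + (ξ : ℂ) * d) / (c * d)).re - (deriv g z / (c * d)).re := by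
    have := mul_pos hpos hξ.1
    rwa [div_mul_cancel₀ _ hξ.1.ne'] at this
  have e : (- deriv g z * d - g z) / (c * d ^ 2) = - (deriv g z / (c * d)) - g z / (c * d ^ 2) := by
    field_simp
  rw [e, Complex.sub_re, Complex.neg_re]
  linarith

theorem UTZ_aux (g : ℂ → ℂ) (x1 c : ℂ) (ε : ℝ) (hc : c ≠ 0)
    (hg : DifferentiableOn ℂ g (ball x1 ε))
    (h2 : ∀ x ∈ ball x1 ε, ‖deriv (deriv g) x - c‖ ≤ ‖c‖ / 2) (z1 z2 z3 : ℂ) (h1 : z1 ∈ ball x1 ε)
    (h2' : z2 ∈ ball x1 ε) (h3 : z3 ∈ ball x1 ε) (h01 : g z1 = 0) (h02 : g z2 = 0) (h03 : g z3 = 0)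
    (hne : z2 ≠ z3) (hs : ∀ t : ℝ, t ∈ Icc (0 : ℝ) 1 → z2 + (t : ℂ) * (z3 - z2) ≠ z1) : False := by
  obtain ⟨d, hd⟩ : ∃ d : ℂ, d = z3 - z2 := ⟨_, rfl⟩
  have hd0 : d ≠ 0 := by
    rw [hd]
    exact sub_ne_zero.mpr (Ne.symm hne)
  rw [← hd] at hs
  have hmem : ∀ t : ℝ, t ∈ Icc (0 : ℝ) 1 → z2 + (t : ℂ) * d ∈ ball x1 ε := by
    intro t ht
    rw [hd]
    exact UTZ_mem x1 ε z2 z3 h2' h3 t ht
  have D : ∀ t : ℝ, t ∈ Icc (0 : ℝ) 1 →
      HasDerivAt (fun s : ℝ => (g (z2 + (s : ℂ) * d) / (c * d * (z1 - (z2 + (s : ℂ) * d)))).re)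
      (- ((- deriv g (z2 + (t : ℂ) * d) * (z1 - (z2 + (t : ℂ) * d)) - g (z2 + (t : ℂ) * d)) /
        (c * (z1 - (z2 + (t : ℂ) * d)) ^ 2)).re) t := by
    intro t ht
    have hx := hmem t ht
    have hn : z1 - (z2 + (t : ℂ) * d) ≠ 0 := sub_ne_zero.mpr (Ne.symm (hs t ht))
    have ha : HasDerivAt (fun x => g x / (c * d * (z1 - x)))
        ((deriv g (z2 + (t : ℂ) * d) * (c * d * (z1 - (z2 + (t : ℂ) * d))) -
          g (z2 + (t : ℂ) * d) * (c * d * (-1))) / (c * d * (z1 - (z2 + (t : ℂ) * d))) ^ 2)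
        (z2 + (t : ℂ) * d) := by
      apply HasDerivAt.div ((hg.differentiableAt (isOpen_ball.mem_nhds hx)).hasDerivAt)
      · have := (((hasDerivAt_id (z2 + (t : ℂ) * d)).const_sub z1).const_mul (c * d))
        exact this
      · exact mul_ne_zero (mul_ne_zero hc hd0) hn
    have h := UTZ_chain (fun x => g x / (c * d * (z1 - x))) z2 d t _ ha
    have h' := h.real_of_complex
    have e : (deriv g (z2 + (t : ℂ) * d) * (c * d * (z1 - (z2 + (t : ℂ) * d))) -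
          g (z2 + (t : ℂ) * d) * (c * d * (-1))) / (c * d * (z1 - (z2 + (t : ℂ) * d))) ^ 2 * d =
        - ((- deriv g (z2 + (t : ℂ) * d) * (z1 - (z2 + (t : ℂ) * d)) - g (z2 + (t : ℂ) * d)) /
        (c * (z1 - (z2 + (t : ℂ) * d)) ^ 2)) := by
      field_simp
      ring
    rw [e, Complex.neg_re] at h'
    exact h'
  obtain ⟨ξ, hξ, eξ⟩ := exists_hasDerivAt_eq_zero
    (f := fun s : ℝ => (g (z2 + (s : ℂ) * d) / (c * d * (z1 - (z2 + (s : ℂ) * d)))).re)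
    (f' := fun t : ℝ => (- ((- deriv g (z2 + (t : ℂ) * d) * (z1 - (z2 + (t : ℂ) * d)) -
      g (z2 + (t : ℂ) * d)) / (c * (z1 - (z2 + (t : ℂ) * d)) ^ 2)).re)) (zero_lt_one)
    (fun t ht => (D t ht).continuousAt.continuousWithinAt)
    (by
      have e1 : z2 + ((1 : ℝ) : ℂ) * d = z3 := by
        rw [hd]
        push_cast
        ring
      have e0 : z2 + ((0 : ℝ) : ℂ) * d = z2 := by
        push_cast
        ring
      simp only [e1, e0, h02, h03, zero_div])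
    (fun t ht => D t ⟨ht.1.le, ht.2.le⟩)
  have hI : ξ ∈ Icc (0 : ℝ) 1 := ⟨hξ.1.le, hξ.2.le⟩
  have hn : z1 - (z2 + (ξ : ℂ) * d) ≠ 0 := sub_ne_zero.mpr (Ne.symm (hs ξ hI))
  have hp := UTZ_pos g x1 c ε hc hg h2 (z2 + (ξ : ℂ) * d) z1 (hmem ξ hI) h1 hn h01
  have eξ' := neg_eq_zero.mp eξ
  rw [eξ'] at hp
  exact lt_irrefl _ hp

theorem UTZ : UTZ_stmt := by
  intro g x1 c ε hε hc hg h2 z1 h1 z2 h2' z3 h3 h01 h02 h03
  by_contra hcon
  push Not at hcon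
  obtain ⟨n12, n13, n23⟩ := hcon
  by_cases hs : ∀ t : ℝ, t ∈ Icc (0 : ℝ) 1 → z2 + (t : ℂ) * (z3 - z2) ≠ z1
  · exact UTZ_aux g x1 c ε hc hg h2 z1 z2 z3 h1 h2' h3 h01 h02 h03 n23 hs
  · push Not at hs
    obtain ⟨t, ht, et⟩ := hs
    apply UTZ_aux g x1 c ε hc hg h2 z2 z1 z3 h2' h1 h3 h02 h01 h03 n13
    intro s hs' es
    have hd : z3 - z2 ≠ 0 := sub_ne_zero.mpr (Ne.symm n23)
    have h5 : (((t + s - s * t : ℝ)) : ℂ) * (z3 - z2) = 0 := by
      push_cast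
      rw [← et] at es
      linear_combination es
    have h6 : ((t + s - s * t : ℝ) : ℂ) = 0 := by
      rcases mul_eq_zero.mp h5 with h | h
      · exact h
      · exact absurd h hd
    have h7 : t + s - s * t = 0 := by exact_mod_cast h6
    have h8 : t = 0 := by
      have h9 : 0 ≤ s * (1 - t) := mul_nonneg hs'.1 (by linarith [ht.2])
      nlinarith [ht.1]
    rw [h8] at et
    apply n12
    rw [← et]
    push_cast
    ring

end Pool.Agent.P2U
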